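import Pool.Agent.Helper65.LG.Defs

set_option autoImplicit false

open Finset Filter Topology

namespace Pool.Agent.Helper28.LG

open Pool.Agent.Helper65.LG

open Classical in
/-- the union of the classes has infinitely many elements -/
theorem count_tendsto (G : GMap) (C : Finset (ℕ × ℕ)) (hC : IsClass G C) :
    Tendsto (fun N : ℕ => (((Icc (-(N : ℤ)) N).filter (fun x => x ∈ SC G C)).card : ℝ)) atTop
      atTop := by
  obtain ⟨B, hB⟩ := hC.ne
  obtain ⟨h1, h2⟩ := hC.state B hB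
  have hd := G.hd
  have hM : 0 < G.d * B.2 := Nat.mul_pos (by omega) (by omega)
  refine tendsto_natCast_atTop_atTop.comp ?_
  refine tendsto_atTop.2 fun K => ?_
  filter_upwards [eventually_ge_atTop (B.1 + (G.d * B.2) * K)] with N hN
  have hle : ((Finset.range K).image fun t : ℕ => ((B.1 : ℤ) + ((G.d * B.2 : ℕ) : ℤ) * t)) ⊆
      (Icc (-(N : ℤ)) N).filter (fun x => x ∈ SC G C) := by
    intro x hx
    obtain ⟨t, ht, rfl⟩ := Finset.mem_image.1 hx
    have ht' : t < K := Finset.mem_range.1 ht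
    rw [Finset.mem_filter, Finset.mem_Icc]
    have h3 : (G.d * B.2) * t ≤ (G.d * B.2) * K := Nat.mul_le_mul_left _ ht'.le
    have h4 : ((G.d * B.2 : ℕ) : ℤ) * t = (((G.d * B.2) * t : ℕ) : ℤ) := by push_cast; ring
    refine ⟨⟨?_, ?_⟩, B, hB, ?_⟩
    · rw [h4]; omega
    · rw [h4]; omega
    · change ((B.1 : ℤ) + ((G.d * B.2 : ℕ) : ℤ) * t) ≡ (B.1 : ℤ) [ZMOD ((G.d * B.2 : ℕ) : ℤ)]
      rw [Int.modEq_iff_dvd]
      exact ⟨-t, by ring⟩
  have hc := Finset.card_le_card hle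
  rw [Finset.card_image_of_injective, Finset.card_range] at hc
  · exact hc
  · intro a b hab
    have h5 : ((G.d * B.2 : ℕ) : ℤ) * a = ((G.d * B.2 : ℕ) : ℤ) * b := by
      have : ((B.1 : ℤ) + ((G.d * B.2 : ℕ) : ℤ) * a) = (B.1 : ℤ) + ((G.d * B.2 : ℕ) : ℤ) * b := hab
      linarith
    have h6 : ((G.d * B.2 : ℕ) : ℤ) ≠ 0 := by exact_mod_cast hM.ne'
    exact_mod_cast mul_left_cancel₀ h6 h5

/-- finitely many integers do not matter -/
theorem AE_mono (G : GMap) (C : Finset (ℕ × ℕ)) (hC : IsClass G C) {E E' : Set ℤ} (x0 : ℕ)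
    (h : AE G C E) (hE : ∀ x : ℤ, (x0 : ℤ) ≤ |x| → x ∈ E → x ∈ E') : AE G C E' := by
  classical
  have hden := count_tendsto G C hC
  have h2 : Tendsto (fun N : ℕ => ((2 * x0 + 1 : ℕ) : ℝ) /
      (((Icc (-(N : ℤ)) N).filter (fun x => x ∈ SC G C)).card : ℝ)) atTop (𝓝 0) :=
    tendsto_const_nhds.div_atTop hden
  have h3 := Tendsto.add h h2
  rw [add_zero] at h3
  refine tendsto_of_tendsto_of_tendsto_of_le_of_le tendsto_const_nhds h3 (fun N => by positivity) ?_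
  intro N
  change (_ : ℝ) / _ ≤ _ / _ + _ / _
  rw [← add_div]
  refine div_le_div_of_nonneg_right ?_ (Nat.cast_nonneg _)
  have h4 : ((Icc (-(N : ℤ)) N).filter (fun x => x ∈ SC G C ∧ x ∉ E')) ⊆
      ((Icc (-(N : ℤ)) N).filter (fun x => x ∈ SC G C ∧ x ∉ E)) ∪ Icc (-(x0 : ℤ)) x0 := by
    intro x hx
    rw [Finset.mem_filter] at hx
    rw [Finset.mem_union, Finset.mem_filter]
    by_cases h5 : (x0 : ℤ) ≤ |x|
    · exact Or.inl ⟨hx.1, hx.2.1, fun h6 => hx.2.2 (hE x h5 h6)⟩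
    · right
      push Not at h5
      have h6 := abs_lt.1 h5
      rw [Finset.mem_Icc]
      constructor <;> omega
  have h5 := (Finset.card_le_card h4).trans (Finset.card_union_le _ _)
  have h6 : (Icc (-(x0 : ℤ)) x0).card = 2 * x0 + 1 := by
    rw [Int.card_Icc]; omega
  rw [h6] at h5
  exact_mod_cast h5

theorem abs_le_rpow {x y : ℤ} (hx : x ≠ 0) (hy : y ≠ 0) {θ : ℝ}
    (h : Real.log |(y : ℝ)| ≤ θ * Real.log |(x : ℝ)|) : |(y : ℝ)| ≤ |(x : ℝ)| ^ θ := by
  have hx' : 0 < |(x : ℝ)| := abs_pos.2 (by exact_mod_cast hx)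
  have hy' : 0 < |(y : ℝ)| := abs_pos.2 (by exact_mod_cast hy)
  rw [Real.rpow_def_of_pos hx', mul_comm (Real.log |(x : ℝ)|)]
  calc |(y : ℝ)| = Real.exp (Real.log |(y : ℝ)|) := (Real.exp_log hy').symm
    _ ≤ _ := Real.exp_le_exp.2 h

theorem rpow_le_abs {x y : ℤ} (hx : x ≠ 0) (hy : y ≠ 0) {θ : ℝ}
    (h : θ * Real.log |(x : ℝ)| ≤ Real.log |(y : ℝ)|) : |(x : ℝ)| ^ θ ≤ |(y : ℝ)| := by
  have hx' : 0 < |(x : ℝ)| := abs_pos.2 (by exact_mod_cast hx)
  have hy' : 0 < |(y : ℝ)| := abs_pos.2 (by exact_mod_cast hy)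
  rw [Real.rpow_def_of_pos hx', mul_comm (Real.log |(x : ℝ)|)]
  calc Real.exp (θ * Real.log |(x : ℝ)|) ≤ Real.exp (Real.log |(y : ℝ)|) := Real.exp_le_exp.2 h
    _ = _ := Real.exp_log hy'

/-- large integers have large logarithms -/
theorem log_large (c : ℝ) : ∃ x0 : ℕ, 1 ≤ x0 ∧ ∀ x : ℤ, (x0 : ℤ) ≤ |x| →
    c ≤ Real.log |(x : ℝ)| := by
  refine ⟨⌈Real.exp c⌉₊ + 1, by omega, fun x hx => ?_⟩
  have h1 : ((⌈Real.exp c⌉₊ + 1 : ℕ) : ℝ) ≤ |(x : ℝ)| := by
    have : (((⌈Real.exp c⌉₊ + 1 : ℕ) : ℤ) : ℝ) ≤ ((|x| : ℤ) : ℝ) := by exact_mod_cast hx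
    rw [Int.cast_abs] at this
    exact_mod_cast this
  have h2 : Real.exp c ≤ |(x : ℝ)| := by
    have := Nat.le_ceil (Real.exp c)
    push_cast at h1
    linarith
  calc c = Real.log (Real.exp c) := (Real.log_exp c).symm
    _ ≤ _ := Real.log_le_log (Real.exp_pos c) h2

theorem l8 (hLaw : S_law) (hMean : S_mean) : S_exp := by
  intro G C ρ hC hρ
  obtain ⟨hb, hlam⟩ := hMean G C ρ hC hρ
  set b := mean C ρ (f0 G) with hbdef
  set h := mean C ρ (f2 G) with hhdef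
  set lam := mean C ρ (f1 G) with hlamdef
  -- the case `h > 0`
  have key : 0 < h → ∀ δ : ℝ, 0 < δ → AE G C {x : ℤ | x ≠ 0 ∧ ∃ k : ℕ, (T G)^[k] x ≠ 0 ∧
      |Real.log |(((T G)^[k] x : ℤ) : ℝ)| - b / h * Real.log (|(x : ℝ)|)|
        ≤ δ * Real.log |(x : ℝ)|} := by
    intro hh δ hδ
    -- choose ε
    obtain ⟨ε, hε0, hε1, hεh, hεδ⟩ : ∃ ε : ℝ, 0 < ε ∧ ε ≤ 1 ∧ ε ≤ h ∧
        ε * (2 + b / h) ≤ δ / 2 := by
      have hpos : 0 < 2 + b / h := by positivity
      refine ⟨min 1 (min h (δ / 2 / (2 + b / h))), ?_, min_le_left _ _,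
        (min_le_right _ _).trans (min_le_left _ _), ?_⟩
      · exact lt_min one_pos (lt_min hh (by positivity))
      · have : min 1 (min h (δ / 2 / (2 + b / h))) ≤ δ / 2 / (2 + b / h) :=
          (min_le_right _ _).trans (min_le_right _ _)
        calc _ ≤ δ / 2 / (2 + b / h) * (2 + b / h) := mul_le_mul_of_nonneg_right this hpos.le
          _ = δ / 2 := by field_simp
    obtain ⟨x0, hx01, hx0⟩ := log_large (2 * |lam| / δ)
    refine AE_mono G C hC x0 (hLaw G C ρ hC hρ ε hε0) fun x hxl hx => ?_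
    have hxne : x ≠ 0 := by
      rintro rfl
      rw [abs_zero] at hxl
      omega
    have hL := hx0 x hxl
    set L := Real.log |(x : ℝ)| with hLdef
    have hL0 : 0 ≤ L := le_trans (by positivity) hL
    have hlL : |lam| ≤ δ / 2 * L := by
      rw [div_le_iff₀ hδ] at hL
      linarith
    refine ⟨hxne, ⌊(1 - ε) * L / h⌋₊, ?_⟩
    set k := ⌊(1 - ε) * L / h⌋₊ with hk
    have hnn : 0 ≤ (1 - ε) * L / h := div_nonneg (mul_nonneg (by linarith) hL0) hh.le
    have hk1 : (k : ℝ) ≤ (1 - ε) * L / h := Nat.floor_le hnn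
    have hk2 : (1 - ε) * L / h < k + 1 := Nat.lt_floor_add_one _
    have hk1' : (k : ℝ) * h ≤ (1 - ε) * L := by rwa [le_div_iff₀ hh] at hk1
    have hk2' : (1 - ε) * L < (k + 1) * h := by rwa [div_lt_iff₀ hh] at hk2
    have hk3 : ε * k ≤ L := by
      have h1 : ε * k ≤ h * k := mul_le_mul_of_nonneg_right hεh (Nat.cast_nonneg _)
      have h2 : (1 - ε) * L ≤ L := by nlinarith
      linarith
    obtain ⟨h5, h6⟩ := hx k hk1' hk3
    refine ⟨h5, ?_⟩
    -- |k lam - (b/h - 1) L| ≤ ...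
    have hq : b / h * h = b := by field_simp
    have h7 : |(L + k * lam) - b / h * L| ≤ ε * (1 + b / h) * L + |lam| := by
      -- k = (1-ε) L / h - s, 0 ≤ s < 1
      obtain ⟨s, hs0, hs1, hs⟩ : ∃ s : ℝ, 0 ≤ s ∧ s ≤ 1 ∧ (k : ℝ) = (1 - ε) * L / h - s :=
        ⟨(1 - ε) * L / h - k, by linarith, by linarith, by ring⟩
      have e1 : (L + k * lam) - b / h * L = ε * (1 - b / h) * L - s * lam := by
        rw [hs, hlam]
        field_simp
        ring
      rw [e1]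
      have e2 : |ε * (1 - b / h) * L| ≤ ε * (1 + b / h) * L := by
        have hbh : 0 ≤ b / h := by positivity
        rw [abs_mul, abs_mul, abs_of_pos hε0, abs_of_nonneg hL0]
        refine mul_le_mul_of_nonneg_right (mul_le_mul_of_nonneg_left ?_ hε0.le) hL0
        rw [abs_le]
        constructor <;> linarith
      have e3 : |s * lam| ≤ |lam| := by
        rw [abs_mul, abs_of_nonneg hs0]
        exact mul_le_of_le_one_left (abs_nonneg _) hs1
      exact (abs_sub _ _).trans (add_le_add e2 e3)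
    calc |Real.log |(((T G)^[k] x : ℤ) : ℝ)| - b / h * L|
        ≤ |Real.log |(((T G)^[k] x : ℤ) : ℝ)| - (L + k * lam)| + |(L + k * lam) - b / h * L| :=
          abs_sub_le _ _ _
      _ ≤ ε * L + (ε * (1 + b / h) * L + |lam|) := add_le_add h6 h7
      _ = ε * (2 + b / h) * L + |lam| := by ring
      _ ≤ δ / 2 * L + δ / 2 * L := add_le_add (mul_le_mul_of_nonneg_right hεδ hL0) hlL
      _ = δ * L := by ring
  constructor
  · intro hneg θ hθ
    have hh : 0 < h := by linarith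
    have hθ' : 0 < θ - b / h := by
      rw [sub_pos, div_lt_iff₀ hh]; exact hθ
    refine AE_mono G C hC 1 (key hh _ hθ') fun x _ hx => ?_
    obtain ⟨hx0, k, hk0, hk⟩ := hx
    refine ⟨k, abs_le_rpow hx0 hk0 ?_⟩
    have := (abs_le.1 hk).2
    linarith
  · intro hpos θ hθ
    rcases lt_or_ge 0 h with hh | hh
    · have hθ' : 0 < b / h - θ := by
        rw [sub_pos, lt_div_iff₀ hh]; exact hθ
      refine AE_mono G C hC 1 (key hh _ hθ') fun x _ hx => ?_
      obtain ⟨hx0, k, hk0, hk⟩ := hx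
      refine ⟨k, rpow_le_abs hx0 hk0 ?_⟩
      have := (abs_le.1 hk).1
      linarith
    · obtain ⟨ε, hε0, hε1, hεδ⟩ : ∃ ε : ℝ, 0 < ε ∧ ε ≤ 1 ∧ ε * (|θ| + 1) ≤ lam := by
        refine ⟨min 1 (lam / (|θ| + 1)), lt_min one_pos (by positivity), min_le_left _ _, ?_⟩
        calc _ ≤ lam / (|θ| + 1) * (|θ| + 1) :=
              mul_le_mul_of_nonneg_right (min_le_right _ _) (by positivity)
          _ = lam := by field_simp
      obtain ⟨x0, hx01, hx0⟩ := log_large lam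
      refine AE_mono G C hC x0 (hLaw G C ρ hC hρ ε hε0) fun x hxl hx => ?_
      have hxne : x ≠ 0 := by
        rintro rfl
        rw [abs_zero] at hxl
        omega
      have hL := hx0 x hxl
      set L := Real.log |(x : ℝ)| with hLdef
      have hL0 : 0 ≤ L := le_trans hpos.le hL
      have hk1 : (⌊L / ε⌋₊ : ℝ) ≤ L / ε := Nat.floor_le (by positivity)
      have hk2 : L / ε < ⌊L / ε⌋₊ + 1 := Nat.lt_floor_add_one _
      set k := ⌊L / ε⌋₊ with hk
      have hk3 : ε * k ≤ L := by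
        rw [le_div_iff₀ hε0] at hk1; linarith
      have hk4 : L < (k + 1) * ε := by rwa [div_lt_iff₀ hε0] at hk2
      obtain ⟨h5, h6⟩ := hx k (by
        have h1 : (k : ℝ) * h ≤ 0 := mul_nonpos_of_nonneg_of_nonpos (Nat.cast_nonneg _) hh
        have h2 : 0 ≤ (1 - ε) * L := mul_nonneg (by linarith) hL0
        linarith) hk3
      refine ⟨k, rpow_le_abs hxne h5 ?_⟩
      have h7 := (abs_le.1 h6).1
      -- (k+1) lam ≥ (|θ|+1) L
      have h8 : (|θ| + 1) * L ≤ (k + 1) * lam := by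
        have h9 : (|θ| + 1) * L ≤ (|θ| + 1) * ((k + 1) * ε) :=
          mul_le_mul_of_nonneg_left hk4.le (by positivity)
        have h10 : (k + 1 : ℝ) * (ε * (|θ| + 1)) ≤ (k + 1) * lam :=
          mul_le_mul_of_nonneg_left hεδ (by positivity)
        nlinarith
      have h11 : θ * L ≤ |θ| * L := mul_le_mul_of_nonneg_right (le_abs_self θ) hL0
      have h12 : ε * L ≤ L := by nlinarith
      nlinarith

end Pool.Agent.Helper28.LG
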